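import Pool.Agent.Y41.EV.StmD

/-!
Project EV, statement LOWALL: from the bulk to all intervals.
-/

set_option autoImplicit false

namespace Pool.Agent.Y587.EV

open MeasureTheory Filter Topology
open Pool.Agent.Y41.EV

/-- The piece which contains a point. -/
lemma find_piece (p : ℕ → unitInterval) (u : unitInterval) (h0 : p 0 ≤ u) :
    ∀ N : ℕ, 1 ≤ N → u ≤ p N → ∃ i < N, p i ≤ u ∧ u ≤ p (i + 1) := by
  intro N
  induction N with
  | zero => intro h; omega
  | succ N ih =>
    intro _ hu
    by_cases h : u ≤ p N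
    · rcases Nat.eq_zero_or_pos N with hN | hN
      · subst hN
        exact ⟨0, by omega, h0, hu⟩
      · obtain ⟨i, hi, h1⟩ := ih hN h
        exact ⟨i, by omega, h1⟩
    · exact ⟨N, by omega, (not_le.1 h).le, hu⟩

/-- Summation of the pieces. -/
lemma vg_sum (f : C(unitInterval, ℂ)) (η : ℝ) (p : ℕ → unitInterval) (y : ℕ → ℝ) :
    ∀ N : ℕ, (∀ i < N, VG f η (p i) (p (i + 1)) (y i)) →
      VG f η (p 0) (p N) (∑ i ∈ Finset.range N, y i) := by
  intro N
  induction N with
  | zero =>
    intro _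
    simpa using VG.refl f η (p 0)
  | succ N ih =>
    intro h
    rw [Finset.sum_range_succ]
    exact (ih fun i hi => h i (by omega)).add (h N (by omega))

theorem lowall : S_LOWALL := by
  classical
  intro f T c0 g hg hT hc0 hvol hyp s t hst η hη x hx
  rcases hst.eq_or_lt with rfl | hlt
  · rw [sub_self, mul_zero] at hx
    exact (VG.refl f η s).le hx.le
  have hlt' : (s : ℝ) < t := hlt
  have hcT : 0 < c0 * T := mul_pos hc0 hT
  -- the set where `g` is large
  obtain ⟨A, hA⟩ : ∃ A : ℕ → Set unitInterval,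
      A = fun k : ℕ => {u | u ∈ Set.Icc s t ∧ 2 / ((k : ℝ) + 1) < g u} := ⟨_, rfl⟩
  have hmono : Monotone A := by
    intro k l hkl u hu
    rw [hA] at hu ⊢
    refine ⟨hu.1, lt_of_le_of_lt ?_ hu.2⟩
    have h1 : (k : ℝ) ≤ l := by exact_mod_cast hkl
    exact div_le_div_of_nonneg_left (by norm_num) (by positivity) (by linarith)
  have hunion : volume (⋃ k, A k) = ENNReal.ofReal ((t : ℝ) - s) := by
    rw [← unitInterval.volume_Icc s t]
    refine le_antisymm (measure_mono ?_) ?_
    · intro u hu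
      rw [Set.mem_iUnion] at hu
      obtain ⟨k, hk⟩ := hu
      rw [hA] at hk
      exact hk.1
    · have hsub : Set.Icc s t ⊆ (⋃ k, A k) ∪ {u | g u ≤ 0} := by
        intro u hu
        by_cases hg0 : g u ≤ 0
        · exact Or.inr hg0
        · left
          rw [Set.mem_iUnion]
          push Not at hg0
          obtain ⟨k, hk⟩ := exists_nat_gt (2 / g u)
          refine ⟨k, ?_⟩
          rw [hA]
          refine ⟨hu, ?_⟩
          rw [div_lt_iff₀ hg0] at hk
          rw [div_lt_iff₀ (by positivity)]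
          nlinarith
      refine (measure_mono hsub).trans ((measure_union_le _ _).trans ?_)
      rw [hvol, add_zero]
  have htend := tendsto_measure_iUnion_atTop (μ := (volume : Measure unitInterval)) hmono
  rw [hunion] at htend
  have hx' : x / (c0 * T) < (t : ℝ) - s := by
    rw [div_lt_iff₀ hcT]
    linarith [mul_comm (c0 * T) ((t : ℝ) - s)]
  have hlt2 : ENNReal.ofReal (x / (c0 * T)) < ENNReal.ofReal ((t : ℝ) - s) :=
    (ENNReal.ofReal_lt_ofReal_iff (by linarith)).2 hx'
  obtain ⟨k, hk⟩ := ((tendsto_order.1 htend).1 _ hlt2).exists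
  have hk2 : x / (c0 * T) ≤ volume.real (A k) :=
    (ENNReal.ofReal_le_iff_le_toReal (measure_ne_top _ _)).1 hk.le
  have hk3 : x ≤ c0 * T * volume.real (A k) := by
    rw [div_le_iff₀ hcT] at hk2
    linarith [mul_comm (c0 * T) (volume.real (A k))]
  -- uniform continuity
  have hk0 : (0 : ℝ) < 1 / ((k : ℝ) + 1) := by positivity
  obtain ⟨δ, hδ, hunif⟩ := Metric.uniformContinuous_iff.1
    (CompactSpace.uniformContinuous_of_continuous hg) (1 / ((k : ℝ) + 1)) hk0
  obtain ⟨N, hN⟩ := exists_nat_gt (((t : ℝ) - s) / δ)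
  have hN0 : (0 : ℝ) < N := lt_of_le_of_lt (div_nonneg (by linarith) hδ.le) hN
  have hN1 : 1 ≤ N := by
    have : 0 < N := by exact_mod_cast hN0
    exact this
  obtain ⟨w, hw⟩ : ∃ w : ℝ, w = ((t : ℝ) - s) / N := ⟨_, rfl⟩
  have hw0 : 0 < w := by rw [hw]; exact div_pos (by linarith) hN0
  have hwN : w * N = (t : ℝ) - s := by rw [hw]; field_simp
  have hwδ : w < δ := by
    rw [hw, div_lt_iff₀ hN0]
    rw [div_lt_iff₀ hδ] at hN
    linarith [mul_comm (N : ℝ) δ]
  obtain ⟨p, hp⟩ : ∃ p : ℕ → unitInterval,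
      p = fun i : ℕ => Set.projIcc 0 1 zero_le_one ((s : ℝ) + i * w) := ⟨_, rfl⟩
  have hpv : ∀ i ≤ N, ((p i : unitInterval) : ℝ) = s + i * w := by
    intro i hi
    rw [hp]
    have h1 : (i : ℝ) * w ≤ N * w :=
      mul_le_mul_of_nonneg_right (by exact_mod_cast hi) hw0.le
    have h2 : 0 ≤ (i : ℝ) * w := by positivity
    have h3 := s.2.1
    have h4 := t.2.2
    have h5 : (s : ℝ) + i * w ∈ Set.Icc (0 : ℝ) 1 := ⟨by linarith, by linarith [mul_comm w N]⟩
    simp only
    rw [Set.projIcc_of_mem zero_le_one h5]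
  have hp0 : p 0 = s := by
    apply Subtype.ext
    rw [hpv 0 (Nat.zero_le _)]
    simp
  have hpN : p N = t := by
    apply Subtype.ext
    rw [hpv N le_rfl]
    linarith [mul_comm w (N : ℝ)]
  have hstep : ∀ i < N, ((p (i + 1) : unitInterval) : ℝ) - p i = w := by
    intro i hi
    rw [hpv i hi.le, hpv (i + 1) hi]
    push_cast
    ring
  have hle : ∀ i < N, p i ≤ p (i + 1) := by
    intro i hi
    have := hstep i hi
    show ((p i : unitInterval) : ℝ) ≤ p (i + 1)
    linarith
  obtain ⟨good, hgood⟩ : ∃ good : ℕ → Prop,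
      good = fun i => ∃ u ∈ Set.Icc (p i) (p (i + 1)), 2 / ((k : ℝ) + 1) < g u := ⟨_, rfl⟩
  have hpiece : ∀ i < N, VG f η (p i) (p (i + 1)) (if good i then c0 * T * w else 0) := by
    intro i hi
    split_ifs with hgi
    · rw [hgood] at hgi
      obtain ⟨u, hu, hgu⟩ := hgi
      rw [← hstep i hi]
      refine hyp k (p i) (p (i + 1)) (hle i hi) ?_ η hη
      intro v hv
      have h1 : dist u v < δ := by
        have e1 : dist u v = |(u : ℝ) - v| := rfl
        have hu1 : ((p i : unitInterval) : ℝ) ≤ u := hu.1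
        have hu2 : (u : ℝ) ≤ p (i + 1) := hu.2
        have hv1 : ((p i : unitInterval) : ℝ) ≤ v := hv.1
        have hv2 : (v : ℝ) ≤ p (i + 1) := hv.2
        have hs := hstep i hi
        rw [e1]
        refine lt_of_le_of_lt ?_ hwδ
        rw [abs_le]
        constructor <;> linarith
      have h2 := hunif h1
      rw [Real.dist_eq] at h2
      have h3 := (abs_lt.1 h2).2
      have h4 : 2 / ((k : ℝ) + 1) = 1 / ((k : ℝ) + 1) + 1 / ((k : ℝ) + 1) := by ring
      linarith
    · exact VG.triv f hη (hle i hi)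
  have hsum := vg_sum f η p (fun i => if good i then c0 * T * w else 0) N hpiece
  rw [hp0, hpN] at hsum
  refine hsum.le (hk3.trans ?_)
  -- covering
  have hcov : A k ⊆ ⋃ i ∈ (Finset.range N).filter good, Set.Icc (p i) (p (i + 1)) := by
    intro u hu
    rw [hA] at hu
    obtain ⟨hu1, hu2⟩ := hu
    obtain ⟨i, hi, h1, h2⟩ := find_piece p u (by rw [hp0]; exact hu1.1) N hN1
      (by rw [hpN]; exact hu1.2)
    simp only [Set.mem_iUnion]
    refine ⟨i, Finset.mem_filter.2 ⟨Finset.mem_range.2 hi, ?_⟩, ⟨h1, h2⟩⟩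
    rw [hgood]
    exact ⟨u, ⟨h1, h2⟩, hu2⟩
  have hmeas : volume.real (A k) ≤ ∑ i ∈ (Finset.range N).filter good, w := by
    refine (measureReal_mono hcov (measure_ne_top _ _)).trans
      ((measureReal_biUnion_finset_le _ _).trans (le_of_eq ?_))
    refine Finset.sum_congr rfl fun i hi => ?_
    have hi' := Finset.mem_range.1 (Finset.mem_filter.1 hi).1
    show (volume (Set.Icc (p i) (p (i + 1)))).toReal = w
    rw [unitInterval.volume_Icc, hstep i hi', ENNReal.toReal_ofReal hw0.le]
  calc c0 * T * volume.real (A k) ≤ c0 * T * ∑ i ∈ (Finset.range N).filter good, w :=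
        mul_le_mul_of_nonneg_left hmeas hcT.le
    _ = ∑ i ∈ Finset.range N, (if good i then c0 * T * w else 0) := by
        rw [Finset.mul_sum, Finset.sum_filter]

end Pool.Agent.Y587.EV
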